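import Pool.Agent.H48.CE.All

/-!
# Claws at the vertices of large degree in graphs without consecutive even cycle lengths

Let `k ≥ 1` and let `G` be a graph on `n` vertices which does not have cycles of `k` consecutive
even lengths (`¬ HasRun k G`).

1. If a vertex `v` of a block `S` has more than `t * k` neighbours in `S`, `t ≥ 2`, then `t + 1` of
   these neighbours are pairwise non-adjacent.
2. Hence `2 e(G) > (t k + 1) (n - 1)` forces such a star in a block.
3. Without such a star for `t = 2` (for instance if `G` is claw-free) `2 e(G) ≤ (2 k + 1) (n - 1)`,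
   and equality holds only if every cycle has length at most `2 k + 1` and spans a clique.
4. If in addition `G` is extremal (among all graphs on `n` vertices without such cycles), then every
   cycle has length at most `2 k + 1 + r (2 k - r) ≤ (k + 1) ^ 2`, `r = (n - 1) mod 2 k`; and if `2 k`
   divides `n - 1`, then every cycle has length at most `2 k + 1` and spans a clique.
-/

set_option autoImplicit false

namespace Pool.Agent.Results.MP_d32443_co.HighDegreeClaws

open Pool.Agent.H48.CE

theorem result :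
    ∀ k : ℕ, 1 ≤ k → ∀ n : ℕ, ∀ G : SimpleGraph (Fin n), ¬ HasRun k G →
      (∀ t : ℕ, 2 ≤ t → ∀ (S : Finset (Fin n)) (v : Fin n), TC G S → v ∈ S →
        t * k < (nb G S v).card →
        ∃ I : Finset (Fin n), I ⊆ nb G S v ∧ I.card = t + 1 ∧ ∀ x ∈ I, ∀ y ∈ I, ¬ G.Adj x y) ∧
      (∀ t : ℕ, 2 ≤ t → (t * k + 1) * (n - 1) < 2 * G.edgeSet.ncard → Star k t G) ∧
      (¬ Star k 2 G →
        2 * G.edgeSet.ncard ≤ (2 * k + 1) * (n - 1) ∧
        (2 * G.edgeSet.ncard = (2 * k + 1) * (n - 1) →
          ∀ v : Fin n, ∀ c : G.Walk v v, c.IsCycle →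
            c.length ≤ 2 * k + 1 ∧ ∀ x ∈ c.support, ∀ y ∈ c.support, x ≠ y → G.Adj x y) ∧
        ((∀ H : SimpleGraph (Fin n), ¬ HasRun k H → H.edgeSet.ncard ≤ G.edgeSet.ncard) →
          (∀ v : Fin n, ∀ c : G.Walk v v, c.IsCycle →
            c.length ≤ 2 * k + 1 + ((n - 1) % (2 * k)) * (2 * k - (n - 1) % (2 * k)) ∧
            c.length ≤ (k + 1) ^ 2) ∧
          (2 * k ∣ n - 1 →
            2 * G.edgeSet.ncard = (2 * k + 1) * (n - 1) ∧
            ∀ v : Fin n, ∀ c : G.Walk v v, c.IsCycle →
              c.length ≤ 2 * k + 1 ∧ ∀ x ∈ c.support, ∀ y ∈ c.support, x ≠ y → G.Adj x y))) := by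
  intro k hk n G hG
  refine ⟨fun t ht S v hS hv hd => local_star hG ht hS hv hd, ?_, ?_⟩
  · intro t ht he
    by_contra hst
    have h1 := edges_star hG ht hst
    omega
  · intro hst
    have h1 := edges_star hG le_rfl hst
    refine ⟨h1, fun he => equality_star hG hst he.ge, fun hext => ⟨fun v c hc => ?_, fun hdvd => ?_⟩⟩
    · have h2 := extremal_cycles hk hG hst hext v c hc
      have h3 : (n - 1) % (2 * k) ≤ 2 * k := (Nat.mod_lt _ (by omega)).le
      exact ⟨h2, h2.trans (mul_sub_le_sq k _ h3)⟩
    · have h2 := extremal_edges hk hext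
      rw [Nat.mod_eq_zero_of_dvd hdvd] at h2
      have h3 : (2 * k + 1) * (n - 1) ≤ 2 * G.edgeSet.ncard := by omega
      exact ⟨le_antisymm h1 h3, equality_star hG hst h3⟩

end Pool.Agent.Results.MP_d32443_co.HighDegreeClaws
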