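import Pool.Agent.H30.VX.All
import Pool.Agent.H30.VX.Hand

/-!
# Extremal graphs without `k` consecutive even cycle lengths, for all large `k`

There is `k₀` such that for all `k ≥ k₀`, all `n` and every graph `G` on `n` vertices without cycles
of the lengths `2 l, 2 l + 2, ..., 2 l + 2 k - 2` (for any `l`), with `r = (n - 1) mod 2 k`:

1. `2 e(G) + r (2 k - r) ≤ (2 k + 1) (n - 1)`;
2. `G` has the largest number of edges among these graphs if and only if equality holds in 1;
3. if so, then every cycle of `G` has at most `2 k + 1` vertices and spans a clique, that is, every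
   block of `G` is a complete graph with at most `2 k + 1` vertices.
-/

set_option autoImplicit false

namespace Pool.Agent.Results.MP_d32443_co.LargeK

theorem result : ∃ k₀ : ℕ, ∀ k : ℕ, k₀ ≤ k → ∀ n : ℕ,
    ∀ G : SimpleGraph (Fin n),
      (¬ ∃ ℓ : ℕ, ∀ i < k, ∃ v : Fin n, ∃ c : G.Walk v v,
          c.IsCycle ∧ c.length = 2 * ℓ + 2 * i) →
      2 * G.edgeSet.ncard + ((n - 1) % (2 * k)) * (2 * k - (n - 1) % (2 * k)) ≤
          (2 * k + 1) * (n - 1) ∧
      ((∀ H : SimpleGraph (Fin n),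
          (¬ ∃ ℓ : ℕ, ∀ i < k, ∃ v : Fin n, ∃ c : H.Walk v v,
              c.IsCycle ∧ c.length = 2 * ℓ + 2 * i) →
          H.edgeSet.ncard ≤ G.edgeSet.ncard) ↔
        2 * G.edgeSet.ncard + ((n - 1) % (2 * k)) * (2 * k - (n - 1) % (2 * k)) =
          (2 * k + 1) * (n - 1)) ∧
      ((∀ H : SimpleGraph (Fin n),
          (¬ ∃ ℓ : ℕ, ∀ i < k, ∃ v : Fin n, ∃ c : H.Walk v v,
              c.IsCycle ∧ c.length = 2 * ℓ + 2 * i) →
          H.edgeSet.ncard ≤ G.edgeSet.ncard) →
        ∀ v : Fin n, ∀ c : G.Walk v v, c.IsCycle →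
          c.length ≤ 2 * k + 1 ∧
            ∀ x ∈ c.support, ∀ y ∈ c.support, x ≠ y → G.Adj x y) :=
  Pool.Agent.H30.VX.hand_of Pool.Agent.H30.VX.All.fin Pool.Agent.H30.VX.All.ffb

end Pool.Agent.Results.MP_d32443_co.LargeK
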